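import Pool.Agent.H88.CL.Basic

/-! (BMP) a bump function (MP_43af95_an).  helper99 -/

open Set Function Topology Metric Filter

namespace Pool.Agent.H99.CL

open Pool.Agent.H88.CL

theorem pf_BMP : T_BMP := by
  intro d
  let f : ContDiffBump (0 : E d) :=
    { rIn := 11 / 20
      rOut := 7 / 10
      rIn_pos := by norm_num
      rIn_lt_rOut := by norm_num }
  have hf2 : ContDiff ℝ 2 f := f.contDiff
  have hcs : HasCompactSupport f := f.hasCompactSupport
  have hcd : HasCompactSupport (fderiv ℝ f) := hcs.fderiv ℝ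
  have hc : Continuous (fderiv ℝ f) := hf2.continuous_fderiv (by norm_num)
  obtain ⟨C1, hC1⟩ := hc.bounded_above_of_compact_support hcd
  have hd1 : ContDiff ℝ 1 (fderiv ℝ f) := hf2.fderiv_right (by norm_num)
  obtain ⟨C2, hC2⟩ := hd1.lipschitzWith_of_hasCompactSupport hcd (by norm_num)
  refine ⟨f, max 1 (max C1 C2), le_max_left _ _, hf2, ?_, ?_, ?_, ?_, ?_⟩
  · intro z hz
    apply f.one_of_mem_closedBall
    rw [mem_closedBall, dist_zero_right]
    exact hz
  · intro z hz
    apply f.zero_of_le_dist
    rw [dist_zero_right]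
    exact hz
  · intro z
    rw [abs_of_nonneg f.nonneg]
    exact f.le_one
  · intro z
    exact (hC1 z).trans ((le_max_left _ _).trans (le_max_right _ _))
  · intro z z'
    have h1 := hC2.dist_le_mul z z'
    rw [dist_eq_norm, dist_eq_norm] at h1
    refine h1.trans (mul_le_mul_of_nonneg_right ?_ (norm_nonneg _))
    exact (le_max_right C1 _).trans (le_max_right _ _)

end Pool.Agent.H99.CL
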