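import Pool.Agent.H88.CL.Basic

/-! (DIF) small perturbations of the identity are diffeomorphisms (MP_43af95_an).  helper99 -/

open Set Function Topology Metric Filter

namespace Pool.Agent.H99.CL

open Pool.Agent.H88.CL

theorem pf_DIF : T_DIF := by
  intro d σ β γ U hU hβ
  have hdU : Differentiable ℝ U := hU.c2.differentiable (by norm_num)
  have hlip : LipschitzWith (1 / 2) U := by
    refine lipschitzWith_of_nnnorm_fderiv_le hdU fun x => ?_
    have h1 : ‖fderiv ℝ U x‖ ≤ 1 / 2 := (hU.b x).trans hβ
    rw [← NNReal.coe_le_coe]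
    push_cast
    exact h1
  have hl : ∀ x x', ‖U x - U x'‖ ≤ 1 / 2 * ‖x - x'‖ := by
    intro x x'
    have h1 := hlip.dist_le_mul x x'
    rw [dist_eq_norm, dist_eq_norm] at h1
    push_cast at h1
    exact h1
  have hinj : ∀ x x', x + U x = x' + U x' → x = x' := by
    intro x x' h
    have h1 : x - x' = U x' - U x := by
      have h2 := congrArg (fun w => w - x' - U x) h
      have h3 : x + U x - x' - U x = x - x' := by abel
      have h4 : x' + U x' - x' - U x = U x' - U x := by abel
      rw [h3, h4] at h2
      exact h2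
    have h2 := hl x' x
    rw [← h1, norm_sub_rev x' x] at h2
    have h3 : ‖x - x'‖ = 0 := by
      have := norm_nonneg (x - x')
      linarith
    exact sub_eq_zero.1 (norm_eq_zero.1 h3)
  have hsurj : ∀ y, ∃ x, x + U x = y := by
    intro y
    have hc : ContractingWith (1 / 2) (fun x => y - U x) := by
      refine ⟨by
        rw [← NNReal.coe_lt_coe]
        push_cast
        norm_num, LipschitzWith.of_dist_le_mul fun x x' => ?_⟩
      rw [dist_sub_left]
      exact hlip.dist_le_mul x x'
    have h1 := hc.fixedPoint_isFixedPt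
    refine ⟨ContractingWith.fixedPoint (fun x => y - U x) hc, ?_⟩
    have h2 : y - U (ContractingWith.fixedPoint (fun x => y - U x) hc) =
      ContractingWith.fixedPoint (fun x => y - U x) hc := h1
    nth_rw 1 [← h2]
    abel
  choose H' hH' using hsurj
  have hli : ∀ x, H' (x + U x) = x := fun x => hinj _ _ (hH' _)
  refine ⟨H', ?_, hli, hH', ?_⟩
  · rw [contDiff_iff_contDiffAt]
    intro y
    set a := H' y with ha
    have hn : ‖-(fderiv ℝ U a)‖ < 1 := by
      rw [norm_neg]
      have := (hU.b a).trans hβ
      linarith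
    let u := Units.oneSub (-(fderiv ℝ U a)) hn
    let e := ContinuousLinearEquiv.unitsEquiv ℝ (E d) u
    have he : (e : E d →L[ℝ] E d) = ContinuousLinearMap.id ℝ (E d) + fderiv ℝ U a := by
      ext1 v
      change (u : E d →L[ℝ] E d) v = _
      rw [Units.val_oneSub, sub_neg_eq_add]
      rfl
    have hc2 : ContDiffAt ℝ 2 (fun x => x + U x) a := (contDiff_id.add hU.c2).contDiffAt
    have hd : HasFDerivAt (fun x => x + U x) (e : E d →L[ℝ] E d) a := by
      rw [he]
      exact (hasFDerivAt_id a).add (hdU a).hasFDerivAt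
    have h2 : (2 : WithTop ℕ∞) ≠ 0 := by norm_num
    have h1 := hc2.to_localInverse hd h2
    have h3 : a + U a = y := hH' y
    have h4 : ∀ᶠ w in 𝓝 (a + U a), H' w = hc2.localInverse hd h2 w := by
      have h5 := (hc2.hasStrictFDerivAt' hd h2).eventually_right_inverse
      filter_upwards [h5] with w hw
      exact hinj _ _ ((hH' w).trans hw.symm)
    have h6 := h1.congr_of_eventuallyEq h4
    change ContDiffAt ℝ 2 H' (a + U a) at h6
    rw [h3] at h6
    exact h6
  · intro x z hz
    apply hinj
    rw [hH', hU.per _ z hz]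
    have h1 := hH' x
    have h2 : H' x + z + U (H' x) = (H' x + U (H' x)) + z := by abel
    rw [h2, h1]

end Pool.Agent.H99.CL
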