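import Pool.Agent.H88.CL.Basic

/-! (MOD) interpolation by a modulus (MP_43af95_an).  helper99 -/

open Set Function Topology Metric Filter

namespace Pool.Agent.H99.CL

open Pool.Agent.H88.CL

theorem pf_MOD : T_MOD := by
  intro ω hω b c e r hb hc he hr h
  rcases le_total (b / c) r with h1 | h1
  · refine (min_le_left _ _).trans (h.trans ?_)
    exact mul_le_mul_of_nonneg_left (hω.mono _ _ (by positivity) h1) he
  · refine (min_le_right _ _).trans ?_
    have h2 := hω.conc r (b / c) hr h1
    have h3 := hω.pos (b / c) (by positivity)
    have h4 := hω.pos r hr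
    have h5 : c * r * ω (b / c) ≤ b * ω r := by
      have h6 := mul_le_mul_of_nonneg_left h2 hc.le
      have e1 : c * (b / c * ω r) = b * ω r := by field_simp
      rw [e1] at h6
      linarith
    have h6 : b * ω r ≤ e * ω (b / c) * ω r := mul_le_mul_of_nonneg_right h h4.le
    have h7 : c * r * ω (b / c) ≤ e * ω r * ω (b / c) := by
      refine (h5.trans h6).trans (le_of_eq ?_)
      ring
    exact le_of_mul_le_mul_right h7 h3

end Pool.Agent.H99.CL
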