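import Pool.Agent.H88.CL.Basic

/-! (OMB) a modulus is larger than linear (MP_43af95_an).  helper99 -/

open Set Function Topology Metric Filter

namespace Pool.Agent.H99.CL

open Pool.Agent.H88.CL

theorem pf_OMB : T_OMB := by
  intro ω hω M
  have h1 : ∀ᶠ r in 𝓝[>] (0 : ℝ), 1 ≤ ω r * Real.log (1 / r) := hω.log.eventually_ge_atTop 1
  have h2 : ∀ᶠ r in 𝓝[>] (0 : ℝ), M * (-(Real.log r * r)) < 1 := by
    have h0 : Tendsto (fun r : ℝ => Real.log r * r) (𝓝[>] 0) (𝓝 0) := by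
      have h := tendsto_log_mul_rpow_nhdsGT_zero zero_lt_one
      simp only [Real.rpow_one] at h
      exact h
    have h3 : Tendsto (fun r : ℝ => M * (-(Real.log r * r))) (𝓝[>] 0) (𝓝 (M * (-0))) :=
      (h0.neg).const_mul M
    rw [neg_zero, mul_zero] at h3
    exact h3.eventually_lt_const one_pos
  have h3 : ∀ᶠ r in 𝓝[>] (0 : ℝ), r < 1 :=
    nhdsWithin_le_nhds (Iio_mem_nhds one_pos)
  obtain ⟨u, hu, hsub⟩ := mem_nhdsGT_iff_exists_Ioc_subset.1 ((h1.and (h2.and h3)))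
  refine ⟨u, hu, ?_⟩
  intro r hr hru
  obtain ⟨a1, a2, a3⟩ := hsub ⟨hr, hru⟩
  have hl : Real.log (1 / r) = -Real.log r := by
    rw [one_div, Real.log_inv]
  have hpos : 0 < Real.log (1 / r) := by
    rw [hl]
    linarith [Real.log_neg hr a3]
  have h4 : M * r * Real.log (1 / r) ≤ ω r * Real.log (1 / r) := by
    refine le_trans (le_of_lt ?_) a1
    rw [hl]
    linarith
  exact le_of_mul_le_mul_right h4 hpos

end Pool.Agent.H99.CL
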